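import Pool.Agent.H9.FC.TB

/-! BAS: basic properties of the forcing notions. -/

namespace Pool.Agent.H2.FC.BAS

open Pool.Agent.H9.FC Set

variable {Ω : Type} [LinearOrder Ω] [WellFoundedLT Ω] {p : Par}

lemma mono {γ γ' : Ω} (h : γ ≤ γ') : PP p γ ⊆ PP p γ' := by
  intro W hW
  rw [mem_PP] at hW ⊢
  rcases hW with h1 | ⟨δ, hδ, h1⟩
  · exact Or.inl h1
  · exact Or.inr ⟨δ, lt_of_lt_of_le hδ h, h1⟩

lemma dep (γ : Ω) : ∀ U : Set (Pt Ω), U ∈ PP p γ → ∀ x x' : Pt Ω, x ∈ U →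
    (∀ δ < γ, x δ = x' δ) → x' ∈ U := by
  induction γ using WellFoundedLT.induction with
  | ind γ ih =>
    intro U hU x x' hx hxx
    rw [mem_PP] at hU
    rcases hU with rfl | ⟨δ, hδ, U', hU', s, l, φ, hs, hl, hφ, rfl⟩
    · exact mem_univ _
    · have hlow : ∀ ε < δ, x ε = x' ε := fun ε hε => hxx ε (hε.trans hδ)
      refine ⟨ih δ hδ U' hU' x x' hx.1 hlow, ?_, ?_⟩
      · intro i hi
        rw [← hxx δ hδ]
        exact hx.2.1 i hi
      · intro i hi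
        rw [← hxx δ hδ, ← hφ.2.1 x x' hlow]
        exact hx.2.2 i hi

/-- the point obtained by changing the coordinate `δ` -/
noncomputable def upd (x : Pt Ω) (δ : Ω) (s : List (Finset ℕ)) (φ : Pt Ω → ℕ → Finset ℕ) : Pt Ω :=
  Function.update x δ (fun i => if i < s.length then s.getD i ∅ else φ x i)

omit [WellFoundedLT Ω] in
lemma upd_of_ne (x : Pt Ω) (δ : Ω) (s : List (Finset ℕ)) (φ : Pt Ω → ℕ → Finset ℕ) {ε : Ω}
    (h : ε ≠ δ) : upd x δ s φ ε = x ε := Function.update_of_ne h _ _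

omit [WellFoundedLT Ω] in
lemma upd_atom {x : Pt Ω} {δ : Ω} {s : List (Finset ℕ)} {φ : Pt Ω → ℕ → Finset ℕ}
    (hφ : DepLt δ φ) : upd x δ s φ ∈ atom δ s φ := by
  have h1 : φ (upd x δ s φ) = φ x := hφ _ _ fun ε hε => upd_of_ne x δ s φ hε.ne
  have h2 : upd x δ s φ δ = fun i => if i < s.length then s.getD i ∅ else φ x i :=
    Function.update_self _ _ _
  refine ⟨?_, ?_⟩
  · intro i hi
    rw [h2]
    simp only [hi, if_true]
  · intro i hi
    rw [h1, h2]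
    simp only [not_lt.2 hi, if_false]
    exact Finset.Subset.refl _

lemma upd_mem {x : Pt Ω} {δ : Ω} {s : List (Finset ℕ)} {φ : Pt Ω → ℕ → Finset ℕ}
    {U : Set (Pt Ω)} (hU : U ∈ PP p δ) (hx : x ∈ U) (hφ : DepLt δ φ) :
    upd x δ s φ ∈ U ∩ atom δ s φ :=
  ⟨dep δ U hU x _ hx fun _ hε => (upd_of_ne x δ s φ hε.ne).symm, upd_atom hφ⟩

lemma sat_atom (γ δ : Ω) (U : Set (Pt Ω)) (s : List (Finset ℕ)) (φ : Pt Ω → ℕ → Finset ℕ)
    (hγ : γ ≤ δ) (hU : U ∈ PP p δ) (hφ : DepLt δ φ) : sat γ (U ∩ atom δ s φ) = sat γ U := by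
  ext x
  constructor
  · rintro ⟨x', hx', h⟩
    exact ⟨x', hx'.1, h⟩
  · rintro ⟨x', hx', h⟩
    refine ⟨upd x' δ s φ, upd_mem hU hx' hφ, ?_⟩
    intro ε hε
    rw [upd_of_ne x' δ s φ (hε.trans_le hγ).ne]
    exact h ε hε

lemma sat_mem (δ : Ω) : ∀ (γ : Ω) (U : Set (Pt Ω)), U ∈ PP p δ → sat γ U ∈ PP p γ := by
  induction δ using WellFoundedLT.induction with
  | ind δ ih =>
    intro γ U hU
    have hU0 := hU
    rw [mem_PP] at hU
    rcases hU with rfl | ⟨ε, hε, U', hU', s, l, φ, hs, hl, hφ, rfl⟩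
    · have : sat γ (univ : Set (Pt Ω)) = univ := by
        ext x
        exact ⟨fun _ => mem_univ _, fun _ => ⟨x, mem_univ _, fun _ _ => rfl⟩⟩
      rw [this, mem_PP]
      exact Or.inl rfl
    · rcases le_or_gt γ ε with h | h
      · rw [sat_atom γ ε U' s φ h hU' hφ.2.1]
        exact ih ε hε γ U' hU'
      · have hmem : U' ∩ atom ε s φ ∈ PP p γ := by
          rw [mem_PP]
          exact Or.inr ⟨ε, h, U', hU', s, l, φ, hs, hl, hφ, rfl⟩
        have : sat γ (U' ∩ atom ε s φ) = U' ∩ atom ε s φ := by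
          ext x
          constructor
          · rintro ⟨x', hx', h'⟩
            exact dep γ _ hmem x' x hx' fun η hη => (h' η hη).symm
          · intro hx
            exact ⟨x, hx, fun _ _ => rfl⟩
        rw [this]
        exact hmem

lemma nonempty (γ : Ω) : ∀ U : Set (Pt Ω), U ∈ PP p γ → U.Nonempty := by
  induction γ using WellFoundedLT.induction with
  | ind γ ih =>
    intro U hU
    rw [mem_PP] at hU
    rcases hU with rfl | ⟨δ, hδ, U', hU', s, l, φ, hs, hl, hφ, rfl⟩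
    · exact ⟨fun _ _ => ∅, mem_univ _⟩
    · obtain ⟨x, hx⟩ := ih δ hδ U' hU'
      exact ⟨_, upd_mem hU' hx hφ.2.1⟩

theorem pf_BAS : T_BAS := by
  intro p Ω _ _
  exact ⟨fun γ γ' h => mono h, fun γ U hU x x' hx h => dep γ U hU x x' hx h,
    fun γ δ U hU => sat_mem δ γ U hU, fun γ U hU => nonempty γ U hU,
    fun γ δ U s φ h hU hφ => sat_atom γ δ U s φ h hU hφ⟩

end Pool.Agent.H2.FC.BAS
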