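import Pool.Agent.H9.FC.TB

/-! DEL: two compatible finite partial functions in an uncountable family. -/

namespace Pool.Agent.H2.FC.DEL

open Pool.Agent.H9.FC Set

lemma key {Ω κ I : Type} [Countable κ] (g : I → Ω → κ) (n : ℕ) : ∀ (S : Set I)
    (f : I → Finset Ω), ¬ S.Countable → (∀ i ∈ S, (f i).card = n) →
    ∃ i ∈ S, ∃ j ∈ S, i ≠ j ∧ ∀ x ∈ f i, x ∈ f j → g i x = g j x := by
  classical
  induction n with
  | zero =>
    intro S f hS hf
    have h1 : ¬ S.Subsingleton := fun h => hS h.countable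
    rw [Set.not_subsingleton_iff] at h1
    obtain ⟨i, hi, j, hj, hij⟩ := h1
    refine ⟨i, hi, j, hj, hij, ?_⟩
    intro x hx
    rw [Finset.card_eq_zero.1 (hf i hi)] at hx
    simp at hx
  | succ n ih =>
    intro S f hS hf
    have hne : S.Nonempty := by
      by_contra h
      rw [Set.not_nonempty_iff_eq_empty] at h
      exact hS (h ▸ Set.countable_empty)
    obtain ⟨i₀, hi₀⟩ := hne
    by_cases hd : ∃ j ∈ S, i₀ ≠ j ∧ Disjoint (f i₀) (f j)
    · obtain ⟨j, hj, hij, hdis⟩ := hd
      exact ⟨i₀, hi₀, j, hj, hij, fun x hx hx' => absurd hx' (Finset.disjoint_left.1 hdis hx)⟩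
    · push Not at hd
      have hcov : S ⊆ {i₀} ∪ ⋃ a ∈ f i₀, ⋃ c : κ, {j | j ∈ S ∧ a ∈ f j ∧ g j a = c} := by
        intro j hj
        by_cases hji : j = i₀
        · left; exact hji
        · right
          obtain ⟨a, ha, ha'⟩ := Finset.not_disjoint_iff.1 (hd j hj (Ne.symm hji))
          simp only [Set.mem_iUnion]
          exact ⟨a, ha, g j a, hj, ha', rfl⟩
      have hex : ∃ a ∈ f i₀, ∃ c : κ, ¬ {j | j ∈ S ∧ a ∈ f j ∧ g j a = c}.Countable := by
        by_contra hcon
        push Not at hcon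
        refine hS (Set.Countable.mono hcov ?_)
        refine (Set.countable_singleton _).union ?_
        refine Set.Countable.biUnion (Finset.countable_toSet _) fun a ha => ?_
        exact Set.countable_iUnion fun c => hcon a ha c
      obtain ⟨a, _, c, hac⟩ := hex
      obtain ⟨i, hi, j, hj, hij, h⟩ := ih {j | j ∈ S ∧ a ∈ f j ∧ g j a = c}
        (fun j => (f j).erase a) hac (fun j hj => by
          rw [Finset.card_erase_of_mem hj.2.1, hf j hj.1]
          rfl)
      refine ⟨i, hi.1, j, hj.1, hij, fun x hx hx' => ?_⟩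
      by_cases hxa : x = a
      · rw [hxa, hi.2.2, hj.2.2]
      · exact h x (Finset.mem_erase.2 ⟨hxa, hx⟩) (Finset.mem_erase.2 ⟨hxa, hx'⟩)

theorem pf_DEL : T_DEL := by
  intro Ω κ I _ _ f g
  have hex : ∃ n : ℕ, ¬ {i | (f i).card = n}.Countable := by
    by_contra hcon
    push Not at hcon
    have h1 : (⋃ n : ℕ, {i | (f i).card = n}).Countable := Set.countable_iUnion hcon
    have h2 : (⋃ n : ℕ, {i | (f i).card = n}) = univ := by
      ext i
      simp
    rw [h2] at h1
    exact Set.not_countable_univ h1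
  obtain ⟨n, hn⟩ := hex
  obtain ⟨i, _, j, _, hij, h⟩ := key g n _ f hn (fun i hi => hi)
  exact ⟨i, j, hij, h⟩

end Pool.Agent.H2.FC.DEL
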