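import Pool.Agent.H9.FC.TB

/-! PIG: pigeonhole on trees. -/

namespace Pool.Agent.H2.FC.PIG

open Pool.Agent.H9.FC Set

lemma big_mono (p : Par) (m : ℕ) : ∀ (d n : ℕ) (T T' : Set (List ℕ)), T ⊆ T' → Big p m n d T →
    Big p m n d T' := by
  intro d
  induction d with
  | zero => intro n T T' h hT; exact h hT
  | succ d ih =>
    intro n T T' h hT
    obtain ⟨C, h1, h2, h3⟩ := hT
    exact ⟨C, h1, h2, fun c hc => ih (n + 1) _ _ (fun u hu => h hu) (h3 c hc)⟩

lemma e_pos (p : Par) (m k : ℕ) : 1 ≤ p.e m k := by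
  induction m with
  | zero => exact le_trans (by norm_num) (p.e_two k)
  | succ m ih =>
    refine le_trans ?_ (p.e_succ m k)
    have : 1 ≤ ∏ i ∈ Finset.range (k + 1), 2 ^ p.a i :=
      Nat.one_le_iff_ne_zero.2 (Finset.prod_ne_zero_iff.2 fun i _ => by positivity)
    exact Nat.one_le_iff_ne_zero.2 (Nat.mul_ne_zero (by omega) (by omega))

lemma big_nonempty (p : Par) (m : ℕ) : ∀ (d n : ℕ) (T : Set (List ℕ)), Big p m n d T →
    T.Nonempty := by
  intro d
  induction d with
  | zero => intro n T h; exact ⟨[], h⟩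
  | succ d ih =>
    intro n T h
    obtain ⟨C, h1, _, h3⟩ := h
    have hC : C.Nonempty := by
      rw [← Finset.card_pos, h1]
      exact e_pos p m n
    obtain ⟨c, hc⟩ := hC
    obtain ⟨u, hu⟩ := ih (n + 1) _ (h3 c hc)
    exact ⟨c :: u, hu⟩

theorem pf_PIG : T_PIG := by
  classical
  intro p m n d
  induction d generalizing n with
  | zero =>
    intro T f _ hT
    refine ⟨{[]}, ?_, ?_, ?_, ?_⟩
    · intro u hu
      rw [Finset.coe_singleton, Set.mem_singleton_iff] at hu
      rw [hu]
      exact hT
    · show [] ∈ (↑({[]} : Finset (List ℕ)) : Set (List ℕ))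
      simp
    · simp
    · intro i
      simp
  | succ d ih =>
    intro T f hf hT
    obtain ⟨C, hCc, hCb, hC⟩ := hT
    have h1 : ∀ c ∈ C, ∃ T' : Finset (List ℕ), (↑T' : Set (List ℕ)) ⊆ {u | c :: u ∈ T} ∧
        Big p m (n + 1) d (↑T' : Set (List ℕ)) ∧
        T'.card ≤ ∏ k ∈ Finset.Ico (n + 1) (n + 1 + d), p.e m k ∧
        ∀ i, (T'.image (fun u => f (c :: u) i)).card ≤
          ∏ k ∈ Finset.Ico (n + 1) (min i (n + 1 + d)), p.e m k := fun c hc =>
      ih (n + 1) {u | c :: u ∈ T} (fun u i => f (c :: u) i) (fun u i => hf _ _) (hC c hc)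
    choose! T' hT'1 hT'2 hT'3 hT'4 using h1
    have h2 : ∀ c ∈ C, ∃ u, u ∈ T' c := fun c hc => by
      obtain ⟨u, hu⟩ := big_nonempty p m d (n + 1) _ (hT'2 c hc)
      exact ⟨u, hu⟩
    choose! u hu using h2
    -- the colouring
    set col : ℕ → (∀ i ∈ Finset.range (n + 1), Finset ℕ) := fun c i _ => f (c :: u c) i with hcol
    set t : Finset (∀ i ∈ Finset.range (n + 1), Finset ℕ) :=
      (Finset.range (n + 1)).pi fun i => (Finset.range (p.a i)).powerset with ht
    have hmaps : ∀ c ∈ C, col c ∈ t := by
      intro c _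
      rw [ht, Finset.mem_pi]
      intro i hi
      exact Finset.mem_powerset.2 (hf _ _)
    have htc : t.card = ∏ i ∈ Finset.range (n + 1), 2 ^ p.a i := by
      rw [ht, Finset.card_pi]
      refine Finset.prod_congr rfl fun i _ => ?_
      rw [Finset.card_powerset, Finset.card_range]
    have htn : t.Nonempty := by
      rw [← Finset.card_pos, htc]
      exact Finset.prod_pos fun i _ => by positivity
    have hle : t.card * p.e m n ≤ C.card := by
      rw [htc, hCc, mul_comm]
      exact p.e_succ m n
    obtain ⟨y, _, hy⟩ := Finset.exists_le_card_fiber_of_mul_le_card_of_maps_to hmaps htn hle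
    obtain ⟨C', hC'sub, hC'c⟩ := Finset.exists_subset_card_eq hy
    have hC'C : ∀ c ∈ C', c ∈ C := fun c hc => (Finset.mem_filter.1 (hC'sub hc)).1
    have hC'y : ∀ c ∈ C', col c = y := fun c hc => (Finset.mem_filter.1 (hC'sub hc)).2
    set R : Finset (List ℕ) := C'.biUnion fun c => (T' c).image (List.cons c) with hR
    have hRmem : ∀ v, v ∈ R ↔ ∃ c ∈ C', ∃ w ∈ T' c, c :: w = v := by
      intro v
      simp only [hR, Finset.mem_biUnion, Finset.mem_image]
    refine ⟨R, ?_, ⟨C', hC'c, fun c hc => hCb c (hC'C c hc), fun c hc => ?_⟩, ?_, ?_⟩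
    · intro v hv
      rw [Finset.mem_coe, hRmem] at hv
      obtain ⟨c, hc, w, hw, rfl⟩ := hv
      exact hT'1 c (hC'C c hc) hw
    · refine big_mono p m d (n + 1) _ _ ?_ (hT'2 c (hC'C c hc))
      intro w hw
      show c :: w ∈ (↑R : Set (List ℕ))
      rw [Finset.mem_coe, hRmem]
      exact ⟨c, hc, w, hw, rfl⟩
    · calc R.card ≤ ∑ c ∈ C', ((T' c).image (List.cons c)).card := Finset.card_biUnion_le
        _ ≤ ∑ c ∈ C', ∏ k ∈ Finset.Ico (n + 1) (n + 1 + d), p.e m k :=
            Finset.sum_le_sum fun c hc => Finset.card_image_le.trans (hT'3 c (hC'C c hc))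
        _ = ∏ k ∈ Finset.Ico n (n + (d + 1)), p.e m k := by
            rw [Finset.sum_const, hC'c, smul_eq_mul,
              Finset.prod_eq_prod_Ico_succ_bot (by omega : n < n + (d + 1))]
            congr 3
            ring
    · intro i
      rcases Nat.lt_or_ge n i with hi | hi
      · have hmin : n < min i (n + (d + 1)) := lt_min hi (by omega)
        rw [Finset.prod_eq_prod_Ico_succ_bot hmin]
        have hsub : R.image (fun v => f v i) ⊆
            C'.biUnion fun c => (T' c).image (fun w => f (c :: w) i) := by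
          intro z hz
          rw [Finset.mem_image] at hz
          obtain ⟨v, hv, rfl⟩ := hz
          rw [hRmem] at hv
          obtain ⟨c, hc, w, hw, rfl⟩ := hv
          exact Finset.mem_biUnion.2 ⟨c, hc, Finset.mem_image.2 ⟨w, hw, rfl⟩⟩
        refine (Finset.card_le_card hsub).trans (Finset.card_biUnion_le.trans ?_)
        refine (Finset.sum_le_sum fun c hc => hT'4 c (hC'C c hc) i).trans ?_
        rw [Finset.sum_const, hC'c, smul_eq_mul]
        have : n + 1 + d = n + (d + 1) := by ring
        rw [this]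
      · have hsub : R.image (fun v => f v i) ⊆ {y i (Finset.mem_range.2 (by omega))} := by
          intro z hz
          rw [Finset.mem_image] at hz
          obtain ⟨v, hv, rfl⟩ := hz
          rw [hRmem] at hv
          obtain ⟨c, hc, w, hw, rfl⟩ := hv
          have hcC := hC'C c hc
          have e1 : (∏ k ∈ Finset.Ico (n + 1) (min i (n + 1 + d)), p.e m k) = 1 := by
            rw [Finset.Ico_eq_empty (by
              intro h
              have := min_le_left i (n + 1 + d)
              omega), Finset.prod_empty]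
          have h4 := hT'4 c hcC i
          rw [e1, Finset.card_le_one] at h4
          have h5 := h4 (f (c :: w) i) (Finset.mem_image.2 ⟨w, hw, rfl⟩) (f (c :: u c) i)
            (Finset.mem_image.2 ⟨u c, hu c hcC, rfl⟩)
          have h6 : col c i (Finset.mem_range.2 (by omega)) =
              y i (Finset.mem_range.2 (by omega)) := by rw [hC'y c hc]
          rw [Finset.mem_singleton, h5]
          exact h6
        refine (Finset.card_le_card hsub).trans ?_
        rw [Finset.card_singleton]
        exact Nat.one_le_iff_ne_zero.2 (Finset.prod_ne_zero_iff.2 fun k _ => by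
          have := e_pos p m k
          omega)

end Pool.Agent.H2.FC.PIG
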